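import Mathlib
import Pool.Agent.N718.GB.Stm
import Pool.Agent.W583.HB.Per

/-! Project GB: a residue class with prescribed symbols. -/

set_option autoImplicit false
set_option linter.all false

namespace Pool.Agent.N713.GB

open Finset Pool.Agent.N718.DC Pool.Agent.N718.GC Pool.Agent.N718.GB

theorem J_mod {A : ℤ} {q : ℕ} (hq : 4 * A.natAbs ∣ q) {l l' : ℕ} (hl : Odd l) (hl' : Odd l')
    (h : l % q = l' % q) : jacobiSym A l = jacobiSym A l' := by
  rw [jacobiSym.mod_right A hl, jacobiSym.mod_right A hl', ← Nat.mod_mod_of_dvd l hq, h,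
    Nat.mod_mod_of_dvd l' hq]

theorem exists_neg {A : ℤ} (hA : ¬ IsSquare A) (q : ℕ) (hq : q ≠ 0) :
    ∃ n : ℕ, Odd n ∧ Nat.Coprime n q ∧ jacobiSym A n = -1 := by
  set D : ℤ := A * (q : ℤ) ^ 2 with hD
  have hA0 : A ≠ 0 := by
    rintro rfl
    exact hA ⟨0, by simp⟩
  have hq0 : (q : ℤ) ≠ 0 := by exact_mod_cast hq
  have hD0 : D ≠ 0 := mul_ne_zero hA0 (pow_ne_zero 2 hq0)
  have hDsq : ¬ IsSquare D := by
    rintro ⟨x, hx⟩
    apply hA
    have h1 : (q : ℤ) ^ 2 ∣ x ^ 2 := ⟨A, by rw [pow_two x, ← hx, hD]; ring⟩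
    have h2 : (q : ℤ) ∣ x := (Int.pow_dvd_pow_iff two_ne_zero).1 h1
    obtain ⟨y, rfl⟩ := h2
    refine ⟨y, mul_right_cancel₀ (pow_ne_zero 2 hq0) ?_⟩
    rw [← hD, hx]; ring
  by_contra hcon
  push Not at hcon
  have h01 : ∀ n : ℕ, Odd n → 0 ≤ jacobiSym D n := by
    intro n hn
    have : NeZero n := ⟨by rintro rfl; simp at hn⟩
    rcases jacobiSym.trichotomy D n with h | h | h
    · omega
    · omega
    · exfalso
      have e1 : jacobiSym D n = jacobiSym A n * jacobiSym (q : ℤ) n ^ 2 := by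
        rw [hD, jacobiSym.mul_left, jacobiSym.pow_left]
      have h2 : jacobiSym (q : ℤ) n ≠ 0 := by
        intro h0
        rw [e1, h0] at h
        norm_num at h
      have h3 : (q : ℤ).gcd n = 1 := by
        by_contra h4
        exact h2 (jacobiSym.eq_zero_iff_not_coprime.2 h4)
      have h5 : Nat.Coprime n q := by
        rw [Nat.coprime_comm]
        exact_mod_cast h3
      apply hcon n hn h5
      rw [jacobiSym.sq_one h3, mul_one] at e1
      rw [← e1, h]
  obtain ⟨m, hm⟩ : ∃ m, m = 4 * D.natAbs := ⟨_, rfl⟩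
  have hDa : 0 < D.natAbs := Int.natAbs_pos.2 hD0
  have hm4 : 4 ≤ m := by omega
  have h1 : ∀ k : ℕ, jacobiSym D (m * k + 1) = 1 := by
    intro k
    have hodd : Odd (m * k + 1) := by
      refine ⟨2 * D.natAbs * k, ?_⟩
      rw [hm]; ring
    rw [jacobiSym.mod_right D hodd, ← hm, Nat.mul_add_mod, Nat.mod_eq_of_lt (by omega),
      jacobiSym.one_right]
  have hper := Pool.Agent.W583.HB.per_ D hDsq 0 (m * m + 1)
  have hsub : (range (m + 1)).image (fun k => m * k + 1) ⊆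
      (Ioc 0 (m * m + 1)).filter (fun n => Odd n) := by
    intro n hn
    rw [mem_image] at hn
    obtain ⟨k, hk, rfl⟩ := hn
    rw [mem_range] at hk
    rw [mem_filter, mem_Ioc]
    refine ⟨⟨by omega, ?_⟩, ⟨2 * D.natAbs * k, by rw [hm]; ring⟩⟩
    have : m * k ≤ m * m := Nat.mul_le_mul_left m (by omega)
    omega
  have h2 : ∑ n ∈ (range (m + 1)).image (fun k => m * k + 1), jacobiSym D n ≤
      ∑ n ∈ (Ioc 0 (m * m + 1)).filter (fun n => Odd n), jacobiSym D n :=
    sum_le_sum_of_subset_of_nonneg hsub fun n hn _ => h01 n (mem_filter.1 hn).2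
  rw [sum_image (by
    intro x _ y _ hxy
    have h3 : m * x = m * y := by simpa using hxy
    exact Nat.eq_of_mul_eq_mul_left (by omega) h3), sum_congr rfl (fun k _ => h1 k)] at h2
  rw [sum_const, card_range, nsmul_eq_mul, mul_one] at h2
  have h3 := (le_abs_self _).trans hper
  have h4 : (m : ℤ) = 4 * |D| := by
    rw [hm]; push_cast; rfl
  push_cast at h2
  linarith

theorem odd_of {q : ℕ} (h2q : 2 ∣ q) {l : ℕ} (hl : Nat.Coprime l q) : Odd l := by
  rw [← Nat.not_even_iff_odd]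
  intro hev
  have h := Nat.dvd_gcd hev.two_dvd h2q
  rw [Nat.Coprime] at hl
  rw [hl] at h
  omega

theorem sum_zero {A : ℤ} (hA : ¬ IsSquare A) {q : ℕ} [NeZero q] (hq : 4 * A.natAbs ∣ q) :
    ∑ u : (ZMod q)ˣ, jacobiSym A (u : ZMod q).val = 0 := by
  obtain ⟨n, hno, hn, hn1⟩ := exists_neg hA q (NeZero.ne q)
  have h2q : 2 ∣ q := dvd_trans ⟨2 * A.natAbs, by ring⟩ hq
  let g := ZMod.unitOfCoprime n hn
  have h1 : ∑ u : (ZMod q)ˣ, jacobiSym A ((g * u : (ZMod q)ˣ) : ZMod q).val =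
      ∑ u : (ZMod q)ˣ, jacobiSym A (u : ZMod q).val :=
    Equiv.sum_comp (Equiv.mulLeft g) (fun u : (ZMod q)ˣ => jacobiSym A (u : ZMod q).val)
  have h2 : ∀ u : (ZMod q)ˣ, jacobiSym A ((g * u : (ZMod q)ˣ) : ZMod q).val =
      - jacobiSym A (u : ZMod q).val := by
    intro u
    have hu := ZMod.val_coe_unit_coprime u
    have huo : Odd (u : ZMod q).val := odd_of h2q hu
    have e0 := ZMod.val_coe_unit_coprime (g * u)
    have e0o : Odd ((g * u : (ZMod q)ˣ) : ZMod q).val := odd_of h2q e0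
    have e1 : jacobiSym A ((g * u : (ZMod q)ˣ) : ZMod q).val =
        jacobiSym A (n * (u : ZMod q).val) := by
      refine J_mod hq e0o (hno.mul huo) ?_
      rw [Units.val_mul, ZMod.val_mul]
      have e2 : (g : ZMod q).val = n % q := by
        show ((ZMod.unitOfCoprime n hn : (ZMod q)ˣ) : ZMod q).val = n % q
        rw [ZMod.coe_unitOfCoprime, ZMod.val_natCast]
      rw [e2]
      simp [Nat.mul_mod]
    rw [e1, jacobiSym.mul_right' A (by rintro rfl; simp at hno) (by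
      intro h0
      rw [h0] at huo
      simp at huo), hn1, neg_one_mul]
  rw [Finset.sum_congr rfl (fun u _ => h2 u), Finset.sum_neg_distrib] at h1
  omega

theorem J_prod {r : ℕ} (a : Fin r → ℤ) (n : ℕ) (T : Finset (Fin r)) :
    jacobiSym (∏ j ∈ T, a j) n = ∏ j ∈ T, jacobiSym (a j) n := by
  classical
  induction T using Finset.induction_on with
  | empty => simp
  | insert j T hj ih => rw [prod_insert hj, prod_insert hj, jacobiSym.mul_left, ih]

theorem chi2_ : S_CHI2 := by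
  classical
  intro r m E ha ε hε
  obtain ⟨q, hq⟩ : ∃ q : ℕ, q = 4 * ∏ j, (E.a j).natAbs := ⟨_, rfl⟩
  rw [← hq]
  have hq0 : q ≠ 0 := by
    rw [hq]
    exact mul_ne_zero (by norm_num)
      (Finset.prod_ne_zero_iff.2 fun j _ => Int.natAbs_ne_zero.2 (ha j))
  have : NeZero q := ⟨hq0⟩
  have h2q : 2 ∣ q := ⟨2 * ∏ j, (E.a j).natAbs, by rw [hq]; ring⟩
  have hT : ∀ T : Finset (Fin r), 4 * (∏ j ∈ T, E.a j).natAbs ∣ q := by
    intro T
    have e : (∏ j ∈ T, E.a j).natAbs = ∏ j ∈ T, (E.a j).natAbs := map_prod Int.natAbsHom _ _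
    rw [hq, e]
    exact Nat.mul_dvd_mul_left 4 (Finset.prod_dvd_prod_of_subset _ _ _ (Finset.subset_univ T))
  have hTj : ∀ j, 4 * (E.a j).natAbs ∣ q := by
    intro j
    have := hT {j}
    rwa [prod_singleton] at this
  have hpos : 0 < ∑ u : (ZMod q)ˣ, ∏ j, (1 + ε j * jacobiSym (E.a j) (u : ZMod q).val) := by
    have e1 : ∀ u : (ZMod q)ˣ, ∏ j, (1 + ε j * jacobiSym (E.a j) (u : ZMod q).val) =
        ∑ T : Finset (Fin r), (∏ j ∈ T, ε j) *
          jacobiSym (∏ j ∈ T, E.a j) (u : ZMod q).val := by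
      intro u
      rw [Finset.prod_one_add]
      refine Finset.sum_congr (by simp) fun T _ => ?_
      rw [Finset.prod_mul_distrib, J_prod]
    rw [Finset.sum_congr rfl (fun u _ => e1 u), Finset.sum_comm]
    refine Finset.sum_pos' (fun T _ => ?_) ⟨∅, Finset.mem_univ _, ?_⟩
    · rw [← Finset.mul_sum]
      by_cases hs : IsSquare (∏ j ∈ T, E.a j)
      · rw [hε.2 T hs, one_mul]
        refine Finset.sum_nonneg fun u _ => ?_
        obtain ⟨s, hs⟩ := hs
        rw [hs, jacobiSym.mul_left]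
        exact mul_self_nonneg _
      · rw [sum_zero hs (hT T), mul_zero]
    · rw [← Finset.mul_sum, prod_empty, prod_empty, one_mul]
      simp only [jacobiSym.one_left, sum_const, nsmul_eq_mul, mul_one]
      exact_mod_cast Finset.card_pos.2 ⟨1, Finset.mem_univ _⟩
  obtain ⟨u, -, hu⟩ := Finset.exists_ne_zero_of_sum_ne_zero hpos.ne'
  rw [Finset.prod_ne_zero_iff] at hu
  have huc := ZMod.val_coe_unit_coprime u
  have huo : Odd (u : ZMod q).val := odd_of h2q huc
  refine ⟨(u : ZMod q).val, huc, fun l hl j => ?_⟩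
  have hlo : Odd l := by
    have h1 : l % 2 = (u : ZMod q).val % 2 := by
      rw [← Nat.mod_mod_of_dvd l h2q, hl, Nat.mod_mod_of_dvd _ h2q]
    rw [Nat.odd_iff] at huo ⊢
    rw [h1, huo]
  rw [J_mod (hTj j) hlo huo hl]
  have h1 := hu j (Finset.mem_univ j)
  have h2 : (E.a j).gcd ((u : ZMod q).val : ℤ) = 1 := by
    have h3 : (E.a j).natAbs ∣ q := dvd_trans ⟨4, by ring⟩ (hTj j)
    have h4 : Nat.Coprime (u : ZMod q).val (E.a j).natAbs := Nat.Coprime.coprime_dvd_right h3 huc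
    rw [Nat.coprime_comm] at h4
    rw [Int.gcd, Int.natAbs_natCast]
    exact h4
  have h5 := jacobiSym.sq_one h2
  have h6 : jacobiSym (E.a j) (u : ZMod q).val = 1 ∨ jacobiSym (E.a j) (u : ZMod q).val = -1 :=
    sq_eq_one_iff.1 h5
  rcases h6 with h6 | h6 <;> rcases hε.1 j with h7 | h7 <;> rw [h6, h7] at h1 ⊢ <;> simp at h1

end Pool.Agent.N713.GB
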